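import Pool.Agent.N931.PN.Stm5
import Pool.Agent.N262.PN.WW
import Pool.Agent.N717.EW.Det1

/-!
Project PN (helper931), part CD (helper700): one arm from a long excursion.
-/

set_option autoImplicit false

namespace Pool.Agent.N700.PN.CD

open H974 H12S H389NS H984N H984P H342P Finset
open Pool.Agent.N116.EW
open Pool.Agent.N931.PN
open Pool.Agent.N262.PN.WW (sd_le le_sd mem_AN cut_dual cut_primal)

/-- the ends and the faces of an edge of the box are close to the centre -/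
theorem near_box {e : Edg} {z : Vtx} {d : ℕ} (heb : e ∈ blk z d) :
    (sd (src e) z ≤ (d : ℤ) ∧ sd (tgt e) z ≤ (d : ℤ)) ∧
      sd (dsrc e) z ≤ (d : ℤ) + 1 ∧ sd (dtgt e) z ≤ (d : ℤ) + 1 := by
  rw [sd_le, sd_le, sd_le, sd_le]
  unfold blk at heb
  obtain ⟨a, b, _ | _⟩ := e
  · rw [mem_RE_false] at heb
    simp only [src_mk, tgt_false, dsrc_false, dtgt_mk]
    omega
  · rw [mem_RE_true] at heb
    simp only [src_mk, tgt_true, dsrc_true, dtgt_mk]
    omega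

theorem far_w {v w z : Vtx} {d R ρ : ℕ} (hRρ : R + d + 4 ≤ ρ) (hv : sd v z ≤ (d : ℤ) + 1)
    (hw : (ρ : ℤ) ≤ sd v w) : (R : ℤ) ≤ sd w z := by
  have hw1 : (R : ℤ) + d + 4 ≤ sd v w := by
    have : ((R + d + 4 : ℕ) : ℤ) ≤ (ρ : ℤ) := by exact_mod_cast hRρ
    push_cast at this
    omega
  rw [le_sd] at hw1
  rw [sd_le] at hv
  rw [le_sd]
  omega

theorem main : S_CD := by
  intro D hD G B hG z d R ρ hd hdR hRρ hB
  constructor
  · rintro ⟨e, heG, heF, x, v, y, hxv, hy, hx, hv, hyK, w, hw, hr⟩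
    have heB : e ∈ B := by
      by_contra h
      exact heF (Or.inl (Finset.mem_coe.mpr (Finset.mem_sdiff.mpr ⟨heG, h⟩)))
    obtain ⟨⟨hps, hpt⟩, -, -⟩ := near_box (hB heB)
    have hvz : sd v z ≤ (d : ℤ) := by
      rcases hxv with ⟨-, h⟩ | ⟨-, h⟩
      · rw [h]; exact hpt
      · rw [h]; exact hps
    have hwz : (R : ℤ) ≤ sd w z := far_w hRρ (by omega) hw
    obtain ⟨f, g, hf, hg, hfg⟩ := cut_primal hdR hwz hr hvz
    refine ⟨f, g, hf, hg, hfg.mono ?_⟩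
    rintro g1 ⟨⟨h1, h2, _⟩, h3⟩
    refine ⟨?_, h3⟩
    rcases h1 with h1 | h1
    · exact h1
    · exact absurd (Pool.Agent.N717.EW.wir_clu hD (G \ B) h1) h2
  · rintro ⟨e, heG, heF, x, y, z', hx, hyz, hxc, hyK, hzK, w, hw, hδ⟩
    have heB : e ∈ B := by
      by_contra h
      exact heF (Or.inl (Finset.mem_coe.mpr (Finset.mem_sdiff.mpr ⟨heG, h⟩)))
    obtain ⟨-, hpds, hpdt⟩ := near_box (hB heB)
    have hz' : sd z' z ≤ (d : ℤ) + 1 := by
      rcases hyz with ⟨-, h⟩ | ⟨-, h⟩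
      · rw [h]; exact hpdt
      · rw [h]; exact hpds
    have hwz : (R : ℤ) ≤ sd w z := far_w hRρ hz' hw
    obtain ⟨f, g, hf, hg, -, hfg⟩ := cut_dual hdR hwz hδ hz'
    refine ⟨f, g, hf, hg, hfg.mono ?_⟩
    rintro g1 ⟨⟨h1, h2, _, _⟩, h3⟩
    refine ⟨h1, fun h => h2 (Or.inl ?_), h3⟩
    have h4 : g1 ∉ B := fun h5 => (mem_AN.mp h3).2 (hB h5)
    exact Finset.mem_coe.mpr (Finset.mem_sdiff.mpr ⟨h, h4⟩)

end Pool.Agent.N700.PN.CD
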